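import Pool.Agent.W606.UB.Stm

set_option autoImplicit false

namespace KN

namespace UB

open Finset Filter Topology
open scoped Classical

namespace Gl

lemma U_same {w w' : List Dir} (h : Same (vl w) (vl w')) (hU : U w) : U w' := by
  rcases hU with h1 | h1
  · exact Or.inl (h.symm.trans h1)
  · exact Or.inr (h.symm.trans h1)

/-- rotation by 180 degrees about the second axis -/
def rp (p : Z3) : Z3 := (-p.1, p.2.1, -p.2.2)

lemma rp_rp (p : Z3) : rp (rp p) = p := by simp [rp]

lemma rp_add (p q : Z3) : rp (p + q) = rp p + rp q := by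
  simp only [rp, Prod.fst_add, Prod.snd_add, Prod.mk_add_mk]
  refine Prod.ext ?_ (Prod.ext ?_ ?_) <;> simp <;> ring

lemma rp_sub (p q : Z3) : rp (p - q) = rp p - rp q := by
  simp only [rp, Prod.fst_sub, Prod.snd_sub, Prod.mk_sub_mk]
  refine Prod.ext ?_ (Prod.ext ?_ ?_) <;> simp <;> ring

lemma rp_neg (p : Z3) : rp (-p) = - rp p := by
  simp only [rp, Prod.fst_neg, Prod.snd_neg]
  rfl

lemma rp_smul (i : ℤ) (p : Z3) : rp (i • p) = i • rp p := by
  simp only [rp, Prod.smul_fst, Prod.smul_snd]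
  refine Prod.ext ?_ (Prod.ext ?_ ?_) <;> simp

lemma dt_rp (p q : Z3) : dt (rp p) (rp q) = dt p q := by
  simp only [rp, dt]; ring

lemma near_rp {r : ℕ} {p q : Z3} (h : near r p q) : near r (rp p) (rp q) := by
  obtain ⟨h1, h2, h3⟩ := h
  refine ⟨?_, h2, ?_⟩
  · simp only [rp]
    rw [show -p.1 - -q.1 = -(p.1 - q.1) by ring, abs_neg]; exact h1
  · simp only [rp]
    rw [show -p.2.2 - -q.2.2 = -(p.2.2 - q.2.2) by ring, abs_neg]; exact h3

/-- the rotation of letters -/
abbrev rh : Dir → Dir := rt .xm .zm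

lemma rh_rh (d : Dir) : rh (rh d) = d := by cases d <;> rfl

lemma vec_rh (d : Dir) : vec (rh d) = rp (vec d) := by cases d <;> decide

lemma map_rh (w : List Dir) : (w.map rh).map rh = w := by
  rw [List.map_map]
  conv_rhs => rw [← List.map_id w]
  exact List.map_congr_left fun d _ => rh_rh d

lemma pos_rh (w : List Dir) : pos (w.map rh) = rp (pos w) := by
  induction w with
  | nil => rfl
  | cons d l ih => simp only [List.map_cons, pos, ih, vec_rh, rp_add]

lemma path_rh (w : List Dir) : path (w.map rh) = (path w).map rp := by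
  induction w with
  | nil => rfl
  | cons d l ih => simp only [List.map_cons, path, ih, pos_rh, vec_rh, rp_add, List.map_cons]

lemma mem_drop (w : List Dir) (i : ℕ) : pos (w.drop i) ∈ path w := by
  rw [mem_path_iff]
  by_cases h : i ≤ w.length
  · exact ⟨i, h, rfl⟩
  · refine ⟨w.length, le_rfl, ?_⟩
    rw [List.drop_eq_nil_of_le (by omega), List.drop_length]

lemma vert {w C S : List Dir} {k : ℕ} (hc : pos w = 0) (hk : k < w.length)
    (hrot : w.rotate k = C ++ S) (m : ℕ) : pos (S.drop m) + pos (w.drop k) ∈ path w := by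
  have h1 : S.drop m = (w.drop k ++ w.take k).drop (C.length + m) := by
    rw [← List.rotate_eq_drop_append_take hk.le, hrot, List.drop_append,
      List.drop_eq_nil_of_le (as := C) (by omega), List.nil_append]
    congr 1
    omega
  have h2 : pos (w.take k) + pos (w.drop k) = 0 := by
    rw [← pos_append, List.take_append_drop, hc]
  rw [h1]
  by_cases hj : C.length + m ≤ w.length - k
  · rw [List.drop_append_of_le_length (by rw [List.length_drop]; exact hj), List.drop_drop,
      pos_append, add_assoc, h2, add_zero]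
    exact mem_drop _ _
  · rw [List.drop_append, List.drop_eq_nil_of_le (as := w.drop k)
      (by rw [List.length_drop]; omega), List.nil_append, ← pos_append]
    generalize C.length + m - (w.drop k).length = j'
    by_cases hk' : j' ≤ k
    · have h3 : (w.take k).drop j' ++ w.drop k = w.drop j' := by
        conv_rhs => rw [← List.take_append_drop k w]
        rw [List.drop_append_of_le_length (by rw [List.length_take]; omega)]
      rw [h3]
      exact mem_drop _ _
    · rw [List.drop_eq_nil_of_le (as := w.take k) (by rw [List.length_take]; omega),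
        List.nil_append]
      exact mem_drop _ _

lemma drop_mid (A S B : List Dir) (i lam : ℕ) (hA : A.length ≤ lam) (hB : B.length ≤ lam)
    (h1 : lam ≤ i) (h2 : i + lam ≤ (A ++ S ++ B).length) :
    ∃ m, (A ++ S ++ B).drop i = S.drop m ++ B := by
  refine ⟨i - A.length, ?_⟩
  simp only [List.length_append] at h2
  rw [List.append_assoc, List.drop_append, List.drop_eq_nil_of_le (as := A) (by omega),
    List.nil_append, List.drop_append_of_le_length (by omega)]

/-- the dock of the right polygon -/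
lemma dockR (h7 : T_rt) (h9 : S_words) {T κ lam β R : ℕ} (hD : Dock T κ lam β R) (w : List Dir)
    (hw : SAP w) (hU : U w) (hl : lam ≤ w.length) (q N : Z3) (hq : q ∈ path w)
    (hN1 : (R : ℤ) ^ 2 < dt N N) (hN2 : dt N N ≤ ((R : ℤ) + 1) ^ 2)
    (hN : ∀ q' ∈ path w, -(2 * dt N (q' - q)) ≤ dt (q' - q) (q' - q)) (h0 : 0 ≤ N.1) :
    ∃ (A B C S : List Dir) (k : ℕ) (r : Z3) (d : Dir),
      k < w.length ∧ A.length ≤ lam ∧ B.length ≤ lam ∧ w.rotate k = C ++ S ∧
      (A ++ S ++ B).length + 1 = w.length + β ∧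
      SAP (.zm :: (A ++ S ++ B)) ∧ U (.zm :: (A ++ S ++ B)) ∧
      pos (w.drop k) = r + pos B ∧
      (∀ g : Dir, dt N (vec g) ≤ - dt N (vec d) + 700) ∧
      near (κ + 1) r (q + (T : ℤ) • vec d) ∧
      ∀ p ∈ path (A ++ S ++ B), p + r ∈ path w ∨
        (0 ≤ p.1 ∧ ∃ i : ℤ, 0 ≤ i ∧ i ≤ T + κ ∧ near κ (p + r) (q + i • vec d)) := by
  obtain ⟨hs, hsame⟩ := h7 .xm .zm (by decide) w hw
  obtain ⟨A, B, C, S, k, e, d, hk, hA, hB, hrot, hlen, hsap, hu, hpos, hg, hnear, hpath⟩ :=
    hD (w.map rh) hs (U_same hsame hU) (by rw [List.length_map]; exact hl) (rp q) (rp (-N))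
      ⟨by
        change rp q ∈ path (w.map rh)
        rw [path_rh]
        exact List.mem_map_of_mem hq, by
        rw [dt_rp]
        have : dt (-N) (-N) = dt N N := by simp only [dt, Prod.fst_neg, Prod.snd_neg]; ring
        rw [this]; exact hN1, by
        rw [dt_rp]
        have : dt (-N) (-N) = dt N N := by simp only [dt, Prod.fst_neg, Prod.snd_neg]; ring
        rw [this]; exact hN2, by
        intro p hp
        change p ∈ path (w.map rh) at hp
        rw [path_rh, List.mem_map] at hp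
        obtain ⟨q', hq', rfl⟩ := hp
        rw [← rp_sub, dt_rp, dt_rp]
        have h1 := hN q' hq'
        have h2 : dt (-N) (q' - q) = - dt N (q' - q) := by
          simp only [dt, Prod.fst_neg, Prod.snd_neg]; ring
        rw [h2]
        linarith⟩
      (by simp only [rp, Prod.fst_neg, neg_neg]; exact h0)
  have hmap : A.map rh ++ S.map rh ++ B.map rh = (A ++ S ++ B).map rh := by
    rw [List.map_append, List.map_append]
  have hzm : ((A ++ S ++ B) ++ [Dir.zp]).map rh = (A ++ S ++ B).map rh ++ [Dir.zm] := by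
    rw [List.map_append]; rfl
  obtain ⟨hs2, hsame2⟩ := h7 .xm .zm (by decide) _ hsap
  have hs3 : SAP ((A ++ S ++ B).map rh ++ [.zm]) := by rw [← hzm]; exact hs2
  have hu3 : U ((A ++ S ++ B).map rh ++ [.zm]) := by
    rw [← hzm]; exact U_same hsame2 hu
  obtain ⟨hs4, hsame4⟩ := (h9 _ hs3).2.2 ((A ++ S ++ B).map rh).length
  rw [List.rotate_append_length_eq] at hs4 hsame4
  refine ⟨A.map rh, B.map rh, C.map rh, S.map rh, k, rp e - (0, 0, 1), rh d, ?_, ?_, ?_, ?_, ?_,
    ?_, ?_, ?_, ?_, ?_, ?_⟩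
  · rw [List.length_map] at hk; exact hk
  · rw [List.length_map]; exact hA
  · rw [List.length_map]; exact hB
  · have h1 := congrArg (List.map rh) hrot
    rw [List.map_rotate, map_rh, List.map_append] at h1
    exact h1
  · rw [hmap, List.length_map]
    rw [List.length_map] at hlen
    exact hlen
  · rw [hmap]; exact hs4
  · rw [hmap]; exact U_same hsame4 hu3
  · rw [← List.map_drop, pos_rh] at hpos
    have h1 := congrArg rp hpos
    rw [rp_rp, rp_add, rp_add, ← pos_rh] at h1
    rw [h1]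
    congr 1
  · intro g
    have h1 := hg (neg (rh g))
    rw [vec_neg, vec_rh] at h1
    have h2 : dt (rp (-N)) (-rp (vec g)) = dt N (vec g) := by
      simp only [rp, dt, Prod.fst_neg, Prod.snd_neg]; ring
    have h3 : dt (rp (-N)) (vec d) = - dt N (vec (rh d)) := by
      rw [vec_rh]
      simp only [rp, dt, Prod.fst_neg, Prod.snd_neg]; ring
    rw [h2, h3] at h1
    exact h1
  · have h1 := near_rp hnear
    rw [rp_add, rp_rp, rp_smul, ← vec_rh] at h1
    obtain ⟨a1, a2, a3⟩ := h1
    refine ⟨?_, ?_, ?_⟩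
    · simp only [Prod.fst_sub, sub_zero]
      push_cast
      linarith
    · simp only [Prod.fst_sub, Prod.snd_sub, sub_zero]
      push_cast
      linarith
    · rw [abs_le] at a3 ⊢
      simp only [Prod.snd_sub] at a3 ⊢
      push_cast
      constructor <;> linarith [a3.1, a3.2]
  · intro p hp
    rw [hmap] at hp
    have h1 : p + (0, 0, -1) ∈ path ((A ++ S ++ B).map rh ++ [Dir.zm]) := by
      obtain ⟨i, hi, rfl⟩ := (mem_path_iff _ _).1 hp
      have h2 : pos (((A ++ S ++ B).map rh ++ [Dir.zm]).drop i) =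
          pos (((A ++ S ++ B).map rh).drop i) + (0, 0, -1) := by
        rw [List.drop_append_of_le_length hi, pos_append]
        rfl
      rw [← h2]
      exact mem_drop _ _
    rw [← hzm, path_rh, List.mem_map] at h1
    obtain ⟨p0, hp0, h1⟩ := h1
    have hp' : p = rp p0 + (0, 0, 1) := by
      rw [h1, add_assoc]
      simp
    have hpr : p + (rp e - (0, 0, 1)) = rp (p0 + e) := by
      rw [hp', rp_add]; abel
    rcases hpath p0 hp0 with h2 | ⟨h2, i, hi0, hi1, hi2⟩
    · left
      rw [hpr]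
      rw [path_rh, List.mem_map] at h2
      obtain ⟨p1, hp1, h2⟩ := h2
      rw [← h2, rp_rp]
      exact hp1
    · right
      refine ⟨?_, i, hi0, hi1, ?_⟩
      · rw [hp']
        simp only [rp, Prod.fst_add, add_zero]
        linarith
      · rw [hpr]
        have h3 := near_rp hi2
        rw [rp_add (rp q), rp_rp, rp_smul, ← vec_rh] at h3
        exact h3

/-- the left vertices of the join -/
lemma join_left (l1 v : List Dir) (hv : pos v = (0, 0, 1)) (i : ℕ) (hi : i ≤ l1.length) :
    pos ((join l1 v []).drop i) = pos (l1.drop i) + (0, 0, 1) := by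
  unfold join
  rw [List.drop_append_of_le_length hi, pos_append]
  congr 1
  change pos (v ++ [Dir.xp]) + vec .xm = _
  rw [pos_append, hv]
  decide

/-- the right vertices of the join -/
lemma join_right (l1 v : List Dir) (m : ℕ) (hm : m ≤ v.length) :
    pos ((join l1 v []).drop (l1.length + 1 + m)) = pos (v.drop m) + (1, 0, 0) := by
  unfold join
  have h1 : (l1 ++ Dir.xm :: (v ++ [Dir.xp])).drop (l1.length + 1 + m) = v.drop m ++ [Dir.xp] := by
    rw [List.drop_append, List.drop_eq_nil_of_le (as := l1) (by omega), List.nil_append,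
      show l1.length + 1 + m - l1.length = m + 1 by omega, List.drop_succ_cons,
      List.drop_append_of_le_length hm]
  rw [h1, pos_append]
  rfl

lemma near_sub {κ κ' : ℕ} (hk : κ ≤ κ') {x y : Z3} (h : near κ x y) : near κ' (x - y) 0 := by
  obtain ⟨h1, h2, h3⟩ := h
  have hk' : (κ : ℤ) ≤ κ' := by exact_mod_cast hk
  refine ⟨?_, ?_, ?_⟩
  · simp only [Prod.fst_sub, Prod.fst_zero, sub_zero]; linarith
  · simp only [Prod.fst_sub, Prod.snd_sub, Prod.fst_zero, Prod.snd_zero, sub_zero]; linarith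
  · simp only [Prod.snd_sub, Prod.snd_zero, sub_zero]; linarith

lemma dt_sub (N u : Z3) : dt (N - u) (N - u) = dt N N - 2 * dt N u + dt u u := by
  simp only [dt, Prod.fst_sub, Prod.snd_sub]; ring

lemma dt_add (N u : Z3) : dt (N + u) (N + u) = dt N N + 2 * dt N u + dt u u := by
  simp only [dt, Prod.fst_add, Prod.snd_add]; ring

lemma far (R : ℕ) (g M : Z3) (NN : ℤ) (h1 : dt g g + 4 * R + 100 < NN)
    (h2 : NN ≤ ((R : ℤ) + 1) ^ 2) (h3 : NN ≤ dt M M) : 1 < dt (M - g) (M - g) := by
  by_contra hlt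
  push Not at hlt
  obtain ⟨g1, g2, g3⟩ := g
  obtain ⟨m1, m2, m3⟩ := M
  simp only [dt, Prod.mk_sub_mk] at *
  obtain ⟨a, rfl⟩ : ∃ a, m1 = g1 + a := ⟨m1 - g1, by ring⟩
  obtain ⟨b, rfl⟩ : ∃ b, m2 = g2 + b := ⟨m2 - g2, by ring⟩
  obtain ⟨c, rfl⟩ : ∃ c, m3 = g3 + c := ⟨m3 - g3, by ring⟩
  have e1 : a * a + b * b + c * c ≤ 1 := by
    have : g1 + a - g1 = a := by ring
    rw [this] at hlt
    have : g2 + b - g2 = b := by ring
    rw [this] at hlt
    have : g3 + c - g3 = c := by ring
    rw [this] at hlt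
    exact hlt
  have hR : (0 : ℤ) ≤ R := Int.natCast_nonneg R
  have hg : g1 * g1 + g2 * g2 + g3 * g3 < ((R : ℤ) + 1) ^ 2 := by linarith
  have hcs : (g1 * a + g2 * b + g3 * c) ^ 2 ≤
      (g1 * g1 + g2 * g2 + g3 * g3) * (a * a + b * b + c * c) := by
    nlinarith [sq_nonneg (g1 * b - g2 * a), sq_nonneg (g1 * c - g3 * a),
      sq_nonneg (g2 * c - g3 * b)]
  have hsq : (g1 * a + g2 * b + g3 * c) ^ 2 ≤ ((R : ℤ) + 1) ^ 2 := by
    have h0 : 0 ≤ g1 * g1 + g2 * g2 + g3 * g3 := by nlinarith [mul_self_nonneg g1, mul_self_nonneg g2, mul_self_nonneg g3]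
    nlinarith
  have hle : g1 * a + g2 * b + g3 * c ≤ (R : ℤ) + 1 := abs_le_of_sq_le_sq' hsq (by linarith) |>.2
  nlinarith

lemma coord (R : ℕ) (g : Z3) (h : dt g g < ((R : ℤ) + 1) ^ 2) :
    |g.2.1| ≤ (R : ℤ) + 2 ∧ |g.2.2| ≤ (R : ℤ) + 2 := by
  have hR : (0 : ℤ) ≤ R := Int.natCast_nonneg R
  simp only [dt] at h
  constructor
  · have h1 : g.2.1 ^ 2 ≤ ((R : ℤ) + 1) ^ 2 := by
      nlinarith [mul_self_nonneg g.1, mul_self_nonneg g.2.2]
    have h2 := abs_le_of_sq_le_sq h1 (by linarith)
    linarith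
  · have h1 : g.2.2 ^ 2 ≤ ((R : ℤ) + 1) ^ 2 := by
      nlinarith [mul_self_nonneg g.1, mul_self_nonneg g.2.1]
    have h2 := abs_le_of_sq_le_sq h1 (by linarith)
    linarith

end Gl

open Gl in
theorem glue_main (h1 : P_dock) (h2 : P_LLd) (h3 : P_slide) (h4 : P_geo) (h5 : P_join)
    (h6 : P_sap) (h7 : T_rt) (h9 : S_words) : P_glue := by
  obtain ⟨κ, hdock⟩ := h1
  obtain ⟨T, hT1, hT2, R₀, hgeo⟩ := h4 (κ + 2)
  obtain ⟨lam, β, hdock⟩ := hdock T (by omega)
  obtain ⟨R, hR1, hR2, hLL⟩ := h2 T 9 (by omega) (max R₀ 2000)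
  have hD := hdock R (le_trans (le_max_right _ _) hR1) hLL
  refine ⟨β, lam, R + 2, ?_⟩
  intro n hn w1 hw1 w2 hw2 t ht
  rw [mem_K] at hw1 hw2
  obtain ⟨hl1, hs1, hu1⟩ := hw1
  obtain ⟨hl2, hs2, hu2⟩ := hw2
  have hproj : ∃ p ∈ (path w1).toFinset, ∃ q ∈ (path w2).toFinset, p.2 = q.2 + t := by
    obtain ⟨p, hp, rfl⟩ := List.mem_map.1 (List.mem_toFinset.1 ht)
    exact ⟨p, List.mem_toFinset.2 hp, 0, List.mem_toFinset.2 (zero_mem_path w2), by simp⟩
  obtain ⟨s, p, q, hp, hq, hN1, hN2, hN0, hsl⟩ := h3 R _ _ t hproj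
  rw [List.mem_toFinset] at hp hq
  have hsl' : ∀ p' ∈ path w1, ∀ q' ∈ path w2, ∀ j : ℤ, 0 ≤ j →
      dt (q + (s, t) - p) (q + (s, t) - p) ≤
        dt (q' + (s, t) + (j, 0, 0) - p') (q' + (s, t) + (j, 0, 0) - p') :=
    fun p' hp' q' hq' j hj => hsl p' (List.mem_toFinset.2 hp') q' (List.mem_toFinset.2 hq') j hj
  have hz : ((0, 0, 0) : Z3) = 0 := rfl
  obtain ⟨A, B, C, S, k, e, d, hk, hA, hB, hrot, hlen, hsap, hu, hpos, hgd, hnear, hpath⟩ :=
    hD w1 hs1 hu1 (by omega) p (q + (s, t) - p) ⟨hp, hN1, hN2, fun p' hp' => by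
      have h := hsl' p' hp' q hq 0 le_rfl
      rw [show q + (s, t) + (0, 0, 0) - p' = (q + (s, t) - p) - (p' - p) by rw [hz]; abel,
        dt_sub (q + (s, t) - p) (p' - p)] at h
      linarith⟩ hN0
  obtain ⟨A', B', C', S', k', r, d', hk', hA', hB', hrot', hlen', hsap', hu', hpos', hgd', hnear',
    hpath'⟩ := dockR h7 h9 hD w2 hs2 hu2 (by omega) q (q + (s, t) - p) hq hN1 hN2
      (fun q' hq' => by
        have h := hsl' p hp q' hq' 0 le_rfl
        rw [show q' + (s, t) + (0, 0, 0) - p = (q + (s, t) - p) + (q' - q) by rw [hz]; abel,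
          dt_add (q + (s, t) - p) (q' - q)] at h
        linarith) hN0
  set N : Z3 := q + (s, t) - p with hN
  obtain ⟨hg1, hg2⟩ := hgeo R (le_trans (le_max_left _ _) hR1) N d d'
    (e - (p + (T : ℤ) • vec d)) (r - (q + (T : ℤ) • vec d')) hN1 hN2 hgd hgd'
    (near_sub (by omega) hnear) (near_sub (by omega) hnear')
    (N + (T : ℤ) • vec d' - (T : ℤ) • vec d + (r - (q + (T : ℤ) • vec d')) -
      (e - (p + (T : ℤ) • vec d)) - (1, 0, 0)) rfl
  have hg : N + (T : ℤ) • vec d' - (T : ℤ) • vec d + (r - (q + (T : ℤ) • vec d')) -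
      (e - (p + (T : ℤ) • vec d)) - (1, 0, 0) = (s, t) + r - e - (1, 0, 0) := by
    rw [hN]; abel
  rw [hg] at hg1 hg2
  set g : Z3 := (s, t) + r - e - (1, 0, 0) with hgdef
  have hXS : XS (A ++ S ++ B) (A' ++ S' ++ B') := by
    refine ⟨hsap, hsap', ?_⟩
    intro P hP Q hQ hPQ2
    by_contra hlt
    push Not at hlt
    have hj : (0 : ℤ) ≤ P.1 - 1 - Q.1 := by linarith
    have hPQ : P = Q + (1, 0, 0) + (P.1 - 1 - Q.1, 0, 0) := by
      refine Prod.ext ?_ ?_
      · simp only [Prod.fst_add]; ring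
      · simp only [Prod.snd_add, hPQ2]
        refine Prod.ext ?_ ?_ <;> simp
    generalize P.1 - 1 - Q.1 = j at hj hPQ
    rcases hpath P hP with hold | ⟨hP1, i, hi0, hi1, hni⟩
    · rcases hpath' Q hQ with hold' | ⟨hQ1, i, hi0, hi1, hni⟩
      · have h := hsl' _ hold _ hold' j hj
        have e1 : Q + r + (s, t) + (j, 0, 0) - (P + e) = g := by
          rw [hPQ, hgdef]; abel
        rw [e1] at h
        have hR : (0 : ℤ) ≤ R := Int.natCast_nonneg R
        linarith
      · have h := hsl' _ hold q hq j hj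
        have hδ := near_sub (κ' := κ + 2) (by omega) hni
        have e1 : q + (s, t) + (j, 0, 0) - (P + e) =
            g - i • vec d' - (Q + r - (q + i • vec d')) := by
          rw [hPQ, hgdef]; abel
        rw [e1] at h
        have h' := (hg2 i hi0 (by push_cast; linarith) _ hδ).2
        linarith
    · rcases hpath' Q hQ with hold' | ⟨hQ1, i', hi0', hi1', hni'⟩
      · have h := hsl' p hp _ hold' j hj
        have hδ := near_sub (κ' := κ + 2) (by omega) hni
        have e1 : Q + r + (s, t) + (j, 0, 0) - p =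
            g + i • vec d + (P + e - (p + i • vec d)) := by
          rw [hPQ, hgdef]; abel
        rw [e1] at h
        have h' := (hg2 i hi0 (by push_cast; linarith) _ hδ).1
        linarith
      · linarith
  have hv : pos (A' ++ S' ++ B') = (0, 0, 1) := by
    have h := hsap'.2.1
    have h' : pos (A' ++ S' ++ B') + (0, 0, -1) = 0 := h
    have h'' : pos (A' ++ S' ++ B') = pos (A' ++ S' ++ B') + (0, 0, -1) + (0, 0, 1) := by
      rw [add_assoc]; simp
    rw [h'', h', zero_add]
  have hL : (jw A S B A' S' B').length = 2 * (n + β) := by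
    simp only [jw, join, List.length_append, List.length_cons, List.length_nil] at hlen hlen' ⊢
    omega
  refine ⟨A, B, C, S, A', B', C', S', k, k', by omega, by omega, hA, hB, hA', hB', hrot, hrot',
    by omega, by omega, ?_, ?_, ?_⟩
  · rw [mem_K]
    exact ⟨hL, h6 _ _ hXS, h5 _ _ hXS hu hu'⟩
  · refine ⟨hL, ?_, ?_⟩
    · have h := join_left (A ++ S ++ B) (A' ++ S' ++ B') hv (A ++ S ++ B).length le_rfl
      rw [List.drop_length] at h
      have h' : n + β - 1 = (A ++ S ++ B).length := by omega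
      unfold jw
      rw [h', h]
      rfl
    · intro i j hi1 hi2 hj1 hj2
      have hll : n + β - 1 = (A ++ S ++ B).length := by omega
      have hll' : n + β - 1 = (A' ++ S' ++ B').length := by omega
      obtain ⟨m, hm⟩ := drop_mid A S B i lam hA hB hi1 (by omega)
      obtain ⟨m', hm'⟩ := drop_mid A' S' B' (j - (n + β)) lam hA' hB' (by omega) (by omega)
      have hu1' : pos ((jw A S B A' S' B').drop i) = pos (S.drop m) + pos B + (0, 0, 1) := by
        unfold jw
        rw [join_left _ _ hv i (by omega), hm, pos_append]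
      have hu2' : pos ((jw A S B A' S' B').drop j) = pos (S'.drop m') + pos B' + (1, 0, 0) := by
        have hjj : j = (A ++ S ++ B).length + 1 + (j - (n + β)) := by omega
        unfold jw
        conv_lhs => rw [hjj]
        rw [join_right _ _ _ (by omega), hm', pos_append]
      have hp' := vert hs1.2.1 hk hrot m
      have hq' := vert hs2.2.1 hk' hrot' m'
      have h := hsl' _ hp' _ hq' 0 le_rfl
      have hfar := far R g _ _ hg1 hN2 h
      have e1 : pos (S'.drop m') + pos (w2.drop k') + (s, t) + (0, 0, 0) -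
          (pos (S.drop m) + pos (w1.drop k)) - g =
          pos ((jw A S B A' S' B').drop j) - pos ((jw A S B A' S' B').drop i) := by
        rw [hu1', hu2', hpos, hpos', hgdef, hz]; abel
      rw [e1] at hfar
      have e2 : dt (pos ((jw A S B A' S' B').drop i) - pos ((jw A S B A' S' B').drop j))
          (pos ((jw A S B A' S' B').drop i) - pos ((jw A S B A' S' B').drop j)) =
          dt (pos ((jw A S B A' S' B').drop j) - pos ((jw A S B A' S' B').drop i))
          (pos ((jw A S B A' S' B').drop j) - pos ((jw A S B A' S' B').drop i)) := by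
        simp only [dt, Prod.fst_sub, Prod.snd_sub]; ring
      rw [e2]
      exact hfar
  · have hR : (0 : ℤ) ≤ R := Int.natCast_nonneg R
    obtain ⟨c1, c2⟩ := coord R g (by linarith)
    have e1 : pos (w1.drop k) - (0, 0, 1) - pos B - pos (w2.drop k') + (1, 0, 0) + pos B' =
        (s, t) - g := by
      rw [hpos, hpos', hgdef]; abel
    rw [e1]
    refine ⟨?_, ?_, ?_⟩
    · simp only [sub_zero, abs_zero]; positivity
    · simp only [Prod.snd_sub]
      rw [show t.1 - (t - g.2).1 = g.2.1 by simp]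
      push_cast
      exact c1
    · simp only [Prod.snd_sub]
      rw [show t.2 - (t.2 - g.2.2) = g.2.2 by ring]
      push_cast
      exact c2

end UB

end KN


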